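import Mathlib
import Pool.Agent.P.MP_bb0bfc_al.Main

namespace Pool.Agent.Results.MP_bb0bfc_al.AllPalindromes

universe u

/-- Every finitely generated group has a finite generating set with respect to which every
element is represented by one palindromic word (palindromic width at most one). -/
theorem result (G : Type u) [Group G] [Group.FG G] :
    ∃ S : Finset G, Subgroup.closure (S : Set G) = ⊤ ∧
      ∀ g : G, ∃ w : List G, w.reverse = w ∧ (∀ x ∈ w, x ∈ S ∨ x⁻¹ ∈ S) ∧ w.prod = g :=
  Pool.Agent.P.MP_bb0bfc_al.all_palindromes G

end Pool.Agent.Results.MP_bb0bfc_al.AllPalindromes
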