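import Mathlib
import Pool.Agent.P.MP_bb0bfc_al.EV.Model

namespace Pool.Agent.Results.MP_bb0bfc_al.EveryGenSet

/-- There is a finitely generated group whose palindromic width is finite with respect to every
finite generating set, and whose commutator width is infinite. -/
theorem result : ∃ (G : Type) (_ : Group G), Group.FG G ∧
    (∀ S : Finset G, Subgroup.closure (S : Set G) = ⊤ →
      ∃ n : ℕ, ∀ g : G, ∃ L : List (List G), L.length ≤ n ∧
        (∀ w ∈ L, w.reverse = w ∧ ∀ x ∈ w, x ∈ S ∨ x⁻¹ ∈ S) ∧ (L.map List.prod).prod = g) ∧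
    ¬ ∃ n : ℕ, ∀ g ∈ commutator G, ∃ l : List G, l.length ≤ n ∧
      (∀ c ∈ l, c ∈ commutatorSet G) ∧ l.prod = g :=
  Pool.Agent.P.MP_bb0bfc_al.EV.main

end Pool.Agent.Results.MP_bb0bfc_al.EveryGenSet
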