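import Mathlib
import Pool.Agent.P.MP_bb0bfc_al.UP.Main

namespace Pool.Agent.Results.MP_bb0bfc_al.PerfectUnbounded

open scoped commutatorElement

/-- A group generated by a finite set `S` of elements of order at most two, in which every
element is a product of two commutators, and an element `w` such that `w ^ k` is not a product
of fewer than `k` palindromes over `S`. -/
theorem result : ∃ (G : Type) (_ : Group G) (S : Finset G),
    Subgroup.closure (S : Set G) = ⊤ ∧ (∀ x ∈ S, x * x = 1) ∧
    (∀ g : G, ∃ a b c d : G, g = ⁅a, b⁆ * ⁅c, d⁆) ∧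
    ∃ w : G, ∀ (k : ℕ) (L : List (List G)),
      (∀ p ∈ L, p.reverse = p ∧ ∀ x ∈ p, x ∈ S ∨ x⁻¹ ∈ S) →
      (L.map List.prod).prod = w ^ k → k ≤ L.length :=
  Pool.Agent.P.MP_bb0bfc_al.UP.main

end Pool.Agent.Results.MP_bb0bfc_al.PerfectUnbounded
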